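import Mathlib

set_option autoImplicit false

namespace Pool.Agent.H8.MG

/-- The achievement set of a (summable) family `x` of reals: the set of all its subsums. -/
def achievementSet {ι : Type} (x : ι → ℝ) : Set ℝ :=
  {s | ∃ A : Set ι, s = ∑' i, A.indicator x i}

/-- The terms of the multigeometric series `(k_1, …, k_m; 1/n)`: all `k_i / n ^ j`, `1 ≤ i ≤ m`,
`j ≥ 1` (the pair `(i, j)` stands for the term `k_i / n ^ (j + 1)`). -/
noncomputable def multigeometric (m n : ℕ) (k : Fin m → ℕ) : Fin m × ℕ → ℝ :=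
  fun p => (k p.1 : ℝ) / (n : ℝ) ^ (p.2 + 1)

/-- The set `Σ` of subsums of `k_1, …, k_m`. -/
def subsums (m : ℕ) (k : Fin m → ℕ) : Set ℕ :=
  {s | ∃ S : Finset (Fin m), s = ∑ i ∈ S, k i}

/-- The hypotheses of Q1. -/
def Hyp (m n : ℕ) (k : Fin m → ℕ) : Prop :=
  2 ≤ n ∧ 1 ≤ m ∧ (∀ i, 0 < k i ∧ ¬ n ∣ k i) ∧ (subsums m k).ncard = n ∧
    0 < MeasureTheory.volume (achievementSet (multigeometric m n k))

end Pool.Agent.H8.MG
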