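import Pool.Agent.H8.MG.Defs

set_option autoImplicit false

open Set MeasureTheory Filter Metric
open scoped Topology

namespace Pool.Agent.H8.MG

section

variable (m n : ℕ) (k : Fin m → ℕ)

theorem mg_nonneg (p : Fin m × ℕ) : 0 ≤ multigeometric m n k p := by
  unfold multigeometric
  positivity

theorem mg_summable (hn : 2 ≤ n) : Summable (multigeometric m n k) := by
  have hn' : (1 : ℝ) < n := by exact_mod_cast (by omega : 1 < n)
  have h1 : Summable (fun j : ℕ => ((n : ℝ) ^ (j + 1))⁻¹) := by
    have h2 : Summable (fun j : ℕ => ((n : ℝ)⁻¹) ^ j) :=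
      summable_geometric_of_lt_one (by positivity) (inv_lt_one_of_one_lt₀ hn')
    have h3 := (summable_nat_add_iff 1).2 h2
    refine h3.congr ?_
    intro j
    rw [inv_pow]
  rw [summable_prod_of_nonneg (mg_nonneg m n k)]
  refine ⟨fun i => ?_, (hasSum_fintype _).summable⟩
  have := h1.mul_left (k i : ℝ)
  refine this.congr fun j => ?_
  unfold multigeometric
  simp [div_eq_mul_inv]

theorem ind_summable (hn : 2 ≤ n) (A : Set (Fin m × ℕ)) :
    Summable (A.indicator (multigeometric m n k)) :=
  (mg_summable m n k hn).indicator A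

theorem ach_compact (hn : 2 ≤ n) : IsCompact (achievementSet (multigeometric m n k)) := by
  classical
  let f : (Fin m × ℕ → Bool) → ℝ := fun b => ∑' p, if b p = true then multigeometric m n k p else 0
  have hf : Continuous f := by
    apply continuous_tsum (u := multigeometric m n k) _ (mg_summable m n k hn)
    · intro p b
      split_ifs
      · rw [Real.norm_of_nonneg (mg_nonneg m n k p)]
      · simpa using mg_nonneg m n k p
    · intro p
      have h1 : Continuous (fun c : Bool => if c = true then multigeometric m n k p else 0) :=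
        continuous_of_discreteTopology
      exact h1.comp (continuous_apply p)
  have h2 : achievementSet (multigeometric m n k) = range f := by
    ext s
    constructor
    · rintro ⟨A, rfl⟩
      refine ⟨fun p => decide (p ∈ A), ?_⟩
      simp only [f, decide_eq_true_eq]
      apply tsum_congr
      intro p
      rw [indicator_apply]
    · rintro ⟨b, rfl⟩
      refine ⟨{p | b p = true}, ?_⟩
      apply tsum_congr
      intro p
      rw [indicator_apply]
      rfl
  rw [h2]
  exact isCompact_range hf

theorem ach_zero : (0 : ℝ) ∈ achievementSet (multigeometric m n k) := ⟨∅, by simp⟩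

theorem ach_shift (hn : 2 ≤ n) (s : ℕ) (hs : s ∈ subsums m k) (x : ℝ)
    (hx : x ∈ achievementSet (multigeometric m n k)) :
    ((s : ℝ) + x) / n ∈ achievementSet (multigeometric m n k) := by
  classical
  obtain ⟨S, rfl⟩ := hs
  obtain ⟨A, rfl⟩ := hx
  have hn0 : (n : ℝ) ≠ 0 := by positivity
  let A' : Set (Fin m × ℕ) := {p | (p.2 = 0 ∧ p.1 ∈ S) ∨ (p.2 ≠ 0 ∧ (p.1, p.2 - 1) ∈ A)}
  refine ⟨A', ?_⟩
  have hA' := ind_summable m n k hn A'
  have hA := ind_summable m n k hn A
  rw [hA'.tsum_prod' (fun i => hA'.prod_factor i), hA.tsum_prod' (fun i => hA.prod_factor i),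
    tsum_fintype, tsum_fintype]
  have h1 : ∀ i : Fin m, (∑' j, A'.indicator (multigeometric m n k) (i, j)) =
      (if i ∈ S then (k i : ℝ) else 0) / n + (∑' j, A.indicator (multigeometric m n k) (i, j)) / n := by
    intro i
    rw [(hA'.prod_factor i).tsum_eq_zero_add, ← tsum_div_const]
    congr 1
    · rw [indicator_apply]
      by_cases hi : i ∈ S
      · have : ((i, 0) : Fin m × ℕ) ∈ A' := Or.inl ⟨rfl, hi⟩
        rw [if_pos this, if_pos hi]
        unfold multigeometric
        simp
      · have : ((i, 0) : Fin m × ℕ) ∉ A' := by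
          rintro (⟨-, h⟩ | ⟨h, -⟩)
          · exact hi h
          · exact h rfl
        rw [if_neg this, if_neg hi]
        simp
    · apply tsum_congr
      intro j
      rw [indicator_apply, indicator_apply]
      by_cases hj : (i, j) ∈ A
      · have : ((i, j + 1) : Fin m × ℕ) ∈ A' := Or.inr ⟨Nat.succ_ne_zero j, by simpa using hj⟩
        rw [if_pos this, if_pos hj]
        unfold multigeometric
        simp only
        rw [pow_succ (n : ℝ) (j + 1), div_mul_eq_div_div]
      · have : ((i, j + 1) : Fin m × ℕ) ∉ A' := by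
          rintro (⟨h, -⟩ | ⟨-, h⟩)
          · exact Nat.succ_ne_zero j h
          · exact hj (by simpa using h)
        rw [if_neg this, if_neg hj]
        simp
  simp_rw [h1]
  rw [Finset.sum_add_distrib, ← Finset.sum_div, ← Finset.sum_div, ← add_div]
  congr 2
  rw [Nat.cast_sum, Finset.sum_ite_mem, Finset.univ_inter]

/-- The level-`j` integers. -/
def T (Sg : Finset ℕ) : ℕ → Finset ℕ
  | 0 => {0}
  | j + 1 => (Sg ×ˢ T Sg j).image (fun p => p.1 + n * p.2)

theorem main_pos (Sg : Finset ℕ) (hSg : (Sg : Set ℕ) ⊆ subsums m k) (hn : 2 ≤ n) (h4 : 4 ∣ n)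
    (hcard : Sg.card = n) (hmod : ∀ s ∈ Sg, s % 4 = 0 ∨ s % 4 = 1) (hlt : ∀ s ∈ Sg, s < 4 * n)
    (h1 : ∀ s ∈ Sg, ∀ t ∈ Sg, s ≠ t + n) (h3 : ∀ s ∈ Sg, ∀ t ∈ Sg, s ≠ t + 3 * n) :
    1 ≤ volume (achievementSet (multigeometric m n k)) := by
  have hn0 : 0 < n := by omega
  have hTmod : ∀ j, ∀ M ∈ T n Sg j, M % 4 = 0 ∨ M % 4 = 1 := by
    intro j
    induction j with
    | zero => intro M hM; simp [T] at hM; simp [hM]
    | succ j ih =>
      intro M hM
      simp only [T, Finset.mem_image, Finset.mem_product] at hM
      obtain ⟨⟨s, M'⟩, ⟨hs, hM'⟩, rfl⟩ := hM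
      have := hmod s hs
      obtain ⟨q, rfl⟩ := h4
      simp only
      rw [mul_assoc]
      omega
  have hTcard : ∀ j, (T n Sg j).card = n ^ j := by
    intro j
    induction j with
    | zero => simp [T]
    | succ j ih =>
      rw [T, Finset.card_image_of_injOn, Finset.card_product, hcard, ih, pow_succ]
      · ring
      · rintro ⟨s, M⟩ hp ⟨t, N⟩ hq heq
        simp only [Finset.coe_product, mem_prod, Finset.mem_coe] at hp hq heq
        obtain ⟨hs, hM⟩ := hp
        obtain ⟨ht, hN⟩ := hq
        have a1 := hTmod j M hM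
        have a2 := hTmod j N hN
        have a3 := hlt s hs
        have a4 := hlt t ht
        have a5 := h1 s hs t ht
        have a6 := h1 t ht s hs
        have a7 := h3 s hs t ht
        have a8 := h3 t ht s hs
        rcases lt_trichotomy M N with h | h | h
        · exfalso
          obtain ⟨d, rfl⟩ := Nat.exists_eq_add_of_lt h
          have : s = t + n * (d + 1) := by
            have : n * (M + d + 1) = n * M + n * (d + 1) := by ring
            omega
          have hd : d + 1 < 4 := by
            by_contra hcon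
            have : n * 4 ≤ n * (d + 1) := Nat.mul_le_mul_left n (by omega)
            omega
          have hd' : d < 3 := by omega
          interval_cases d
          · omega
          · omega
          · omega
        · subst h
          simp only [Prod.mk.injEq, and_true]
          omega
        · exfalso
          obtain ⟨d, rfl⟩ := Nat.exists_eq_add_of_lt h
          have : t = s + n * (d + 1) := by
            have : n * (N + d + 1) = n * N + n * (d + 1) := by ring
            omega
          have hd : d + 1 < 4 := by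
            by_contra hcon
            have : n * 4 ≤ n * (d + 1) := Nat.mul_le_mul_left n (by omega)
            omega
          have hd' : d < 3 := by omega
          interval_cases d
          · omega
          · omega
          · omega
  have hTmem : ∀ j, ∀ M ∈ T n Sg j, ∀ x ∈ achievementSet (multigeometric m n k),
      ((M : ℝ) + x) / (n : ℝ) ^ j ∈ achievementSet (multigeometric m n k) := by
    intro j
    induction j with
    | zero =>
      intro M hM x hx
      simp [T] at hM
      simpa [hM] using hx
    | succ j ih =>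
      intro M hM x hx
      simp only [T, Finset.mem_image, Finset.mem_product] at hM
      obtain ⟨⟨s, M'⟩, ⟨hs, hM'⟩, rfl⟩ := hM
      have h5 := ih M' hM' _ (ach_shift m n k hn s (hSg hs) x hx)
      convert h5 using 1
      have hn0' : (n : ℝ) ≠ 0 := by positivity
      push_cast
      field_simp
      ring
  have key : ∀ j : ℕ, 1 ≤ volume (cthickening (((n : ℝ)⁻¹) ^ j)
      (achievementSet (multigeometric m n k))) := by
    intro j
    have hnj : (0 : ℝ) < (n : ℝ) ^ j := by positivity
    have hsub : (⋃ M ∈ T n Sg j, Ico ((M : ℝ) / (n : ℝ) ^ j) (((M : ℝ) + 1) / (n : ℝ) ^ j)) ⊆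
        cthickening (((n : ℝ)⁻¹) ^ j) (achievementSet (multigeometric m n k)) := by
      intro y hy
      simp only [mem_iUnion] at hy
      obtain ⟨M, hM, hy1, hy2⟩ := hy
      have h6 := hTmem j M hM 0 (ach_zero m n k)
      rw [add_zero] at h6
      apply mem_cthickening_of_dist_le y _ _ _ h6
      rw [Real.dist_eq, abs_of_nonneg (by linarith), inv_pow]
      rw [add_div, one_div] at hy2
      linarith
    refine le_trans ?_ (measure_mono hsub)
    rw [measure_biUnion_finset]
    · have : ∀ M ∈ T n Sg j, volume (Ico ((M : ℝ) / (n : ℝ) ^ j) (((M : ℝ) + 1) / (n : ℝ) ^ j)) =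
          ENNReal.ofReal (((n : ℝ) ^ j)⁻¹) := by
        intro M _
        rw [Real.volume_Ico]
        congr 1
        rw [add_div, one_div]
        ring
      rw [Finset.sum_congr rfl this, Finset.sum_const, hTcard, nsmul_eq_mul,
        ENNReal.ofReal_inv_of_pos hnj]
      have h7 : ((n ^ j : ℕ) : ENNReal) = ENNReal.ofReal ((n : ℝ) ^ j) := by
        rw [← ENNReal.ofReal_natCast]
        push_cast
        rfl
      rw [h7, ENNReal.mul_inv_cancel]
      · exact (ENNReal.ofReal_pos.2 hnj).ne'
      · exact ENNReal.ofReal_ne_top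
    · intro M _ N _ hMN
      rw [Function.onFun, Set.disjoint_left]
      rintro y ⟨hy1, hy2⟩ ⟨hy3, hy4⟩
      rw [div_le_iff₀ hnj] at hy1 hy3
      rw [lt_div_iff₀ hnj] at hy2 hy4
      have h8 : (M : ℝ) < N + 1 := by linarith
      have h9 : (N : ℝ) < M + 1 := by linarith
      have h8' : M < N + 1 := by exact_mod_cast h8
      have h9' : N < M + 1 := by exact_mod_cast h9
      omega
    · intro M _
      exact measurableSet_Ico
  have hlim := tendsto_measure_cthickening_of_isCompact (μ := volume) (ach_compact m n k hn)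
  have hpow : Tendsto (fun j : ℕ => ((n : ℝ)⁻¹) ^ j) atTop (𝓝 0) := by
    apply tendsto_pow_atTop_nhds_zero_of_lt_one (by positivity)
    apply inv_lt_one_of_one_lt₀
    exact_mod_cast (by omega : 1 < n)
  exact ge_of_tendsto' (hlim.comp hpow) key

end

/-- The set of subsums as a finset. -/
def subF (m : ℕ) (k : Fin m → ℕ) : Finset ℕ :=
  (Finset.univ : Finset (Fin m)).powerset.image (fun S => ∑ i ∈ S, k i)

theorem subF_coe (m : ℕ) (k : Fin m → ℕ) : (subF m k : Set ℕ) = subsums m k := by
  ext s
  simp only [subF, Finset.coe_image, Finset.powerset_univ, Finset.coe_univ, image_univ, mem_range]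
  constructor
  · rintro ⟨S, rfl⟩; exact ⟨S, rfl⟩
  · rintro ⟨S, rfl⟩; exact ⟨S, rfl⟩

theorem ex28 : Hyp 5 28 ![1, 8, 16, 32, 48] := by
  have hc : (subF 5 ![1, 8, 16, 32, 48]).card = 28 := by decide
  refine ⟨by norm_num, by norm_num, by decide, ?_, ?_⟩
  · rw [← subF_coe, ncard_coe_finset, hc]
  · refine lt_of_lt_of_le zero_lt_one
      (main_pos 5 28 _ (subF 5 ![1, 8, 16, 32, 48]) (subF_coe _ _).subset (by norm_num)
      (by norm_num) hc ?_ ?_ ?_ ?_)
    · decide
    · decide
    · decide
    · decide

theorem ex12 : Hyp 4 12 ![1, 8, 16, 16] := by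
  have hc : (subF 4 ![1, 8, 16, 16]).card = 12 := by decide
  refine ⟨by norm_num, by norm_num, by decide, ?_, ?_⟩
  · rw [← subF_coe, ncard_coe_finset, hc]
  · refine lt_of_lt_of_le zero_lt_one
      (main_pos 4 12 _ (subF 4 ![1, 8, 16, 16]) (subF_coe _ _).subset (by norm_num)
      (by norm_num) hc ?_ ?_ ?_ ?_)
    · decide
    · decide
    · decide
    · decide

end Pool.Agent.H8.MG
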